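import Pool.Agent.K1H59.VX.Stm2
import Pool.Agent.TH42.NC.Count

/-!
# The local lemmas for integral points (task U2)
-/

set_option autoImplicit false

namespace Pool.Agent.K1H30.VX

open MvPolynomial Finset Pool.Agent.K1H59.VX Pool.Agent.TH42.NC

/-- the coefficients of the second fundamental form are homogeneous -/
theorem Q_hom {m d : ℕ} {F : MvPolynomial (Fin (m + 2)) ℤ} (hF : F.IsHomogeneous d)
    (i k : Fin (m + 2)) : (Q F i k).IsHomogeneous (2 * (d - 1) + (d - 2)) := by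
  have h1 : ∀ j, (pderiv j F).IsHomogeneous (d - 1) := fun j => hF.pderiv
  have h2 : ∀ j l, (pderiv j (pderiv l F)).IsHomogeneous (d - 2) := fun j l => by
    have := (h1 l).pderiv (i := j)
    rwa [Nat.sub_sub] at this
  have h3 : ∀ a b c e, (pderiv a F * pderiv b F * pderiv c (pderiv e F)).IsHomogeneous
      (2 * (d - 1) + (d - 2)) := fun a b c e => by
    have := ((h1 a).mul (h1 b)).mul (h2 c e)
    rwa [← two_mul] at this
  unfold Q
  rw [pow_two]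
  exact (((h3 _ _ _ _).sub (h3 _ _ _ _)).sub (h3 _ _ _ _)).add (h3 _ _ _ _)

section

variable {K : Type} [NormedField K] {m : ℕ}

/-- the point `s x` -/
def pt (s : K) (x : Fin (m + 2) → ℤ) : Fin (m + 2) → K := fun i => s * (x i : K)

theorem aeval_pt (s : K) (x : Fin (m + 2) → ℤ) {G : MvPolynomial (Fin (m + 2)) ℤ} {k : ℕ}
    (hG : G.IsHomogeneous k) : aeval (pt s x) G = s ^ k * ((eval x G : ℤ) : K) := by
  unfold pt
  rw [aeval_smul_hom G hG, aeval_int]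

theorem pt_sub (s : K) (x y : Fin (m + 2) → ℤ) (i : Fin (m + 2)) :
    pt s y i - pt s x i = s ^ 1 * ((y i - x i : ℤ) : K) := by
  unfold pt
  push_cast
  ring

theorem pt_det (s : K) (x y z : Fin (m + 2) → ℤ) :
    (pt s y 0 - pt s x 0) * (pt s z 1 - pt s x 1) - (pt s y 1 - pt s x 1) * (pt s z 0 - pt s x 0) =
      s ^ 2 * ((det3 x y z : ℤ) : K) := by
  unfold pt det3
  push_cast
  ring

/-- the local lemmas, over a normed field -/
theorem loc_gen (K : Type) [NormedField K] {m d : ℕ} (F : MvPolynomial (Fin (m + 2)) ℤ)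
    (hF : F.IsHomogeneous d) {c3 : ℝ} (hc3 : 0 < c3) :
    ∃ C c4 : ℝ, 1 ≤ C ∧ 0 < c4 ∧ c4 ≤ 1 ∧ ∀ (v : Option ℕ) (B : ℝ) (s : K),
    (∀ (k : ℕ) (a : ℤ), nval v B k a = ‖s ^ k * (a : K)‖) →
    (∀ x : Fin (m + 2) → ℤ, Box B x → ∀ i, ‖s * (x i : K)‖ ≤ 1) →
    (∀ (x y : Fin (m + 2) → ℤ) (ε : ℝ), Box B x → Box B y → Agree x y →
      Close v B F d c3 ε x → Close v B F d c3 ε y → Near v B c4 x y →
      nval v B 1 (y 0 - x 0) ≤ C * (nval v B 1 (y 1 - x 1) + ε)) ∧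
    (∀ (x y z : Fin (m + 2) → ℤ) (ε ρ : ℝ), Box B x → Box B y → Box B z → Agree x y → Agree x z →
      Close v B F d c3 ε x → Close v B F d c3 ε y → Close v B F d c3 ε z → ρ ≤ 1 →
      Near v B ρ x y → Near v B ρ x z →
      nval v B 2 (det3 x y z) ≤ C * (ε + ρ ^ 2) * ρ) ∧
    (∀ (x y z : Fin (m + 2) → ℤ) (ε ρ γ r : ℝ), Box B x → Box B y → Box B z → Agree x y →
      Agree x z → Close v B F d c3 ε x → Close v B F d c3 ε y → Close v B F d c3 ε z → ρ ≤ 1 →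
      Near v B ρ x y → Near v B ρ x z → det3 x y z = 0 → 0 < γ → γ ≤ 1 →
      γ ≤ nval v B (2 * (d - 1) + (d - 2)) (eval x (Q F 1 1)) → C * ρ ≤ γ → 0 < r →
      C * ε ≤ γ * r ^ 2 → Near v B r x y ∨ Near v B r x z ∨ Near v B r y z) := by
  obtain ⟨CA, c4, hCA, hc4, hc41, hA⟩ := local_A (K := K) F hc3
  obtain ⟨CB, hCB, hB⟩ := local_B (K := K) F hc3
  obtain ⟨CC, hCC, hC⟩ := local_C (K := K) F hc3
  have hCle : ∀ C', C' = CA ∨ C' = CB ∨ C' = CC → C' ≤ max CA (max CB CC) := by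
    rintro C' (rfl | rfl | rfl)
    · exact le_max_left _ _
    · exact (le_max_left _ _).trans (le_max_right _ _)
    · exact (le_max_right _ _).trans (le_max_right _ _)
  refine ⟨max CA (max CB CC), c4, hCA.trans (le_max_left _ _), hc4, hc41, ?_⟩
  intro v B s hn hbox
  have hz : ∀ x : Fin (m + 2) → ℤ, Box B x → ‖pt s x‖ ≤ 1 := fun x hx => by
    rw [pi_norm_le_iff_of_nonneg zero_le_one]
    exact hbox x hx
  have hag : ∀ x y : Fin (m + 2) → ℤ, Agree x y →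
      ∀ i : Fin m, pt s x i.succ.succ = pt s y i.succ.succ := fun x y h i => by
    unfold pt
    rw [h i]
  have hcl : ∀ (x : Fin (m + 2) → ℤ) (ε : ℝ), Close v B F d c3 ε x →
      ‖aeval (pt s x) F‖ ≤ ε ∧ c3 ≤ ‖aeval (pt s x) (pderiv 0 F)‖ := fun x ε h => by
    rw [aeval_pt s x hF, aeval_pt s x hF.pderiv, ← hn, ← hn]
    exact h
  have hne : ∀ (x y : Fin (m + 2) → ℤ) (r : ℝ), Near v B r x y ↔
      ‖pt s y 0 - pt s x 0‖ ≤ r ∧ ‖pt s y 1 - pt s x 1‖ ≤ r := fun x y r => by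
    rw [pt_sub, pt_sub, ← hn, ← hn]
    rfl
  refine ⟨?_, ?_, ?_⟩
  · intro x y ε hx hy hxy cx cy hnear
    obtain ⟨f1, g1⟩ := hcl x ε cx
    obtain ⟨f2, -⟩ := hcl y ε cy
    obtain ⟨n1, n2⟩ := (hne x y c4).mp hnear
    have hε : 0 ≤ ε := (norm_nonneg _).trans f1
    have h := hA (pt s x) (pt s y) ε (hz x hx) (hag x y hxy) g1 f1 f2 n1 n2
    rw [pt_sub, pt_sub, ← hn, ← hn] at h
    refine h.trans (mul_le_mul_of_nonneg_right (hCle _ (Or.inl rfl)) ?_)
    rw [hn]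
    positivity
  · intro x y z ε ρ hx hy hz' hxy hxz cx cy cz hρ nxy nxz
    obtain ⟨f1, g1⟩ := hcl x ε cx
    obtain ⟨f2, -⟩ := hcl y ε cy
    obtain ⟨f3, -⟩ := hcl z ε cz
    obtain ⟨n1, n2⟩ := (hne x y ρ).mp nxy
    obtain ⟨n3, n4⟩ := (hne x z ρ).mp nxz
    have hε : 0 ≤ ε := (norm_nonneg _).trans f1
    have hρ0 : 0 ≤ ρ := (norm_nonneg _).trans n1
    have h := hB (pt s x) (pt s y) (pt s z) ε ρ (hz x hx) (hag x y hxy) (hag x z hxz) g1 f1 f2 f3
      hρ n1 n2 n3 n4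
    rw [pt_det, ← hn] at h
    refine h.trans (mul_le_mul_of_nonneg_right (mul_le_mul_of_nonneg_right
      (hCle _ (Or.inr (Or.inl rfl))) (by positivity)) hρ0)
  · intro x y z ε ρ γ r hx hy hz' hxy hxz cx cy cz hρ nxy nxz hdet hγ hγ1 hq hCρ hr hCε
    obtain ⟨f1, g1⟩ := hcl x ε cx
    obtain ⟨f2, -⟩ := hcl y ε cy
    obtain ⟨f3, -⟩ := hcl z ε cz
    obtain ⟨n1, n2⟩ := (hne x y ρ).mp nxy
    obtain ⟨n3, n4⟩ := (hne x z ρ).mp nxz
    have hε : 0 ≤ ε := (norm_nonneg _).trans f1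
    have hρ0 : 0 ≤ ρ := (norm_nonneg _).trans n1
    have hle := hCle _ (Or.inr (Or.inr rfl))
    rw [hn, ← aeval_pt s x (Q_hom hF 1 1)] at hq
    have h := hC (pt s x) (pt s y) (pt s z) ε ρ γ r (hz x hx) (hag x y hxy) (hag x z hxz) g1 f1 f2
      f3 hρ n1 n2 n3 n4 (by rw [pt_det, hdet]; simp) hγ hγ1 hq
      ((mul_le_mul_of_nonneg_right hle hρ0).trans hCρ) hr
      ((mul_le_mul_of_nonneg_right hle hε).trans hCε)
    rw [hne, hne, hne]
    exact h

end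

theorem loc : S_LOC := by
  intro m F d v hF hv c3 hc3
  match v, hv with
  | none, _ =>
    obtain ⟨C, c4, h1, h2, h3, h⟩ := loc_gen ℝ F hF hc3
    refine ⟨C, c4, h1, h2, h3, fun B hB => h none B B⁻¹ ?_ ?_⟩
    · intro k a
      have hB0 : 0 < B := by linarith
      rw [norm_mul, norm_pow, norm_inv, Real.norm_eq_abs, Real.norm_eq_abs, abs_of_pos hB0]
      show |(a : ℝ)| / B ^ k = _
      rw [inv_pow]
      field_simp
    · intro x hx i
      have hB0 : 0 < B := by linarith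
      rw [norm_mul, norm_inv, Real.norm_eq_abs, Real.norm_eq_abs, abs_of_pos hB0,
        inv_mul_le_iff₀ hB0, mul_one]
      exact hx i
  | some p, hv =>
    have : Fact p.Prime := ⟨hv p rfl⟩
    obtain ⟨C, c4, h1, h2, h3, h⟩ := loc_gen ℚ_[p] F hF hc3
    refine ⟨C, c4, h1, h2, h3, fun B hB => h (some p) B 1 ?_ ?_⟩
    · intro k a
      rw [one_pow, one_mul]
      show ((padicNorm p (a : ℚ) : ℚ) : ℝ) = _
      rw [← Padic.eq_padicNorm]
      norm_cast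
    · intro x hx i
      rw [one_mul]
      exact Padic.norm_int_le_one _

end Pool.Agent.K1H30.VX
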